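import Mathlib

set_option autoImplicit false

open Polynomial Set

namespace Pool.Agent.Results.MP_4bcb19_an.OneCritical

/-- The signed curvature of the graph `y = p(x)` at the point with abscissa `x`. -/
noncomputable def kappa (p : ℝ[X]) (x : ℝ) : ℝ :=
  (derivative (derivative p)).eval x / (1 + ((derivative p).eval x) ^ 2) ^ (3 / 2 : ℝ)

theorem exists_antideriv (f : ℝ[X]) : ∃ F : ℝ[X], derivative F = f ∧ F.eval 0 = 0 := by
  induction f using Polynomial.induction_on' with
  | add p q hp hq =>
    obtain ⟨F, hF, hF0⟩ := hp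
    obtain ⟨G, hG, hG0⟩ := hq
    exact ⟨F + G, by rw [derivative_add, hF, hG], by rw [eval_add, hF0, hG0, add_zero]⟩
  | monomial n a =>
    refine ⟨monomial (n + 1) (a / (n + 1)), ?_, ?_⟩
    · rw [derivative_monomial]
      have : (n + 1 : ℝ) ≠ 0 := by positivity
      congr 1
      push_cast
      field_simp
    · simp

theorem nonneg_of_deriv (f : ℝ[X]) (h0 : 0 ≤ f.eval 0)
    (hd : ∀ t : ℝ, 0 < t → 0 ≤ f.derivative.eval t) (x : ℝ) (hx : 0 ≤ x) : 0 ≤ f.eval x := by
  have hmono : MonotoneOn (fun t : ℝ => f.eval t) (Ici 0) := by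
    apply monotoneOn_of_deriv_nonneg (convex_Ici 0) f.continuous.continuousOn
      f.differentiable.differentiableOn
    intro t ht
    rw [interior_Ici] at ht
    rw [Polynomial.deriv]
    exact hd t ht
  have := hmono (mem_Ici.mpr le_rfl) (mem_Ici.mpr hx) hx
  simp only at this
  linarith

/-- The derivative of the curvature. -/
theorem hasDerivAt_kappa (p : ℝ[X]) (x : ℝ) :
    HasDerivAt (kappa p)
      (((derivative (derivative (derivative p))).eval x * (1 + ((derivative p).eval x) ^ 2)
        - 3 * (derivative p).eval x * ((derivative (derivative p)).eval x) ^ 2) *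
        (1 + ((derivative p).eval x) ^ 2) ^ (1 / 2 : ℝ) /
        ((1 + ((derivative p).eval x) ^ 2) ^ (3 / 2 : ℝ)) ^ 2) x := by
  have hB : 0 < 1 + ((derivative p).eval x) ^ 2 := by positivity
  have h2 : HasDerivAt (fun t : ℝ => 1 + ((derivative p).eval t) ^ 2)
      (2 * (derivative p).eval x * (derivative (derivative p)).eval x) x := by
    have := ((derivative p).hasDerivAt x).fun_pow 2
    have h := this.const_add 1
    refine h.congr_deriv ?_
    push_cast
    ring
  have h3 := h2.rpow_const (p := (3 / 2 : ℝ)) (Or.inl hB.ne')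
  have h4 := ((derivative (derivative p)).hasDerivAt x).div h3
    (Real.rpow_pos_of_pos hB _).ne'
  refine HasDerivAt.congr_deriv h4 ?_
  have h5 : (1 + ((derivative p).eval x) ^ 2) ^ (3 / 2 : ℝ) =
      (1 + ((derivative p).eval x) ^ 2) ^ (1 / 2 : ℝ) * (1 + ((derivative p).eval x) ^ 2) := by
    rw [show (3 / 2 : ℝ) = 1 / 2 + 1 by norm_num, Real.rpow_add hB, Real.rpow_one]
  have h6 : (1 + ((derivative p).eval x) ^ 2) ^ ((3 / 2 : ℝ) - 1) =
      (1 + ((derivative p).eval x) ^ 2) ^ (1 / 2 : ℝ) := by norm_num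
  rw [h6]
  congr 1
  rw [h5]
  ring

theorem result : ∀ n : ℕ, Even n → 4 ≤ n → ∃ p : ℝ[X], p.natDegree = n ∧
    {x : ℝ | deriv (kappa p) x = 0} = {0} ∧ {x : ℝ | IsLocalExtr (kappa p) x} = {0} := by
  intro n hn hn4
  obtain ⟨j, hj, hj1⟩ : ∃ j : ℕ, n = 2 * j + 2 ∧ 1 ≤ j := by
    obtain ⟨k, hk⟩ := hn
    exact ⟨k - 1, by omega, by omega⟩
  -- the constant
  set c : ℝ := 2 * j + 1 with hc
  have hj' : (1 : ℝ) ≤ j := by exact_mod_cast hj1
  have hc1 : 1 ≤ c := by rw [hc]; linarith
  have hc0 : 0 < c := by linarith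
  have hcj : (2 * j : ℝ) < c ^ 2 := by rw [hc]; nlinarith
  set g : ℝ[X] := C c * (1 + X ^ 2) ^ j with hg
  obtain ⟨q, hq, hq0⟩ := exists_antideriv g
  obtain ⟨p, hp, -⟩ := exists_antideriv q
  have hqd : derivative q = g := hq
  have hgd : derivative g = C (2 * j * c) * (X * (1 + X ^ 2) ^ (j - 1)) := by
    rw [hg]
    simp [derivative_pow]
    ring
  have hgeval : ∀ x : ℝ, g.eval x = c * (1 + x ^ 2) ^ j := by
    intro x; rw [hg]; simp
  have hgdeval : ∀ x : ℝ, (derivative g).eval x = 2 * j * c * (x * (1 + x ^ 2) ^ (j - 1)) := by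
    intro x; rw [hgd]; simp
  -- symmetry of q: q is odd
  have hodd : ∀ x : ℝ, q.eval (-x) = - q.eval x := by
    have hF : derivative (q.comp (-X) + q) = 0 := by
      rw [derivative_add, derivative_comp, hqd]
      have : g.comp (-X) = g := by
        rw [hg]; simp
      rw [this]; simp
    have hconst := derivative_eq_zero.mp hF
    intro x
    have h1 := eq_C_of_natDegree_eq_zero hconst
    have hx : (q.comp (-X) + q).eval x = (q.comp (-X) + q).eval 0 := by
      generalize q.comp (-X) + q = w at *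
      rw [h1]; simp
    simp [eval_comp, hq0] at hx
    linarith
  -- lower bound for q
  have hqlow : ∀ x : ℝ, 0 ≤ x → c * x ≤ q.eval x := by
    intro x hx
    have := nonneg_of_deriv (q - C c * X) (by simp [hq0]) (by
      intro t ht
      have h1 : (1 : ℝ) ≤ (1 + t ^ 2) ^ j := one_le_pow₀ (by nlinarith)
      simp [hqd, hgeval]
      nlinarith) x hx
    simp at this
    linarith
  -- upper bound for q
  have hqup : ∀ x : ℝ, 0 ≤ x → q.eval x ≤ c * x * (1 + x ^ 2) ^ j := by
    intro x hx
    have := nonneg_of_deriv (X * g - q) (by simp [hq0]) (by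
      intro t ht
      simp only [derivative_sub, derivative_mul, derivative_X, one_mul, eval_sub, eval_add,
        eval_mul, eval_X, hqd, hgdeval]
      have : 0 ≤ t * (2 * j * c * (t * (1 + t ^ 2) ^ (j - 1))) := by positivity
      linarith) x hx
    simp only [eval_sub, eval_mul, eval_X, hgeval] at this
    linarith
  -- key inequality
  have hkey : ∀ x : ℝ, 0 ≤ x → j * x * q.eval x ≤ c * (1 + x ^ 2) ^ (j + 1) := by
    intro x hx
    have := nonneg_of_deriv (C c * (1 + X ^ 2) ^ (j + 1) - C (j : ℝ) * X * q)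
      (by simp [hc0.le]) (by
      intro t ht
      have h1 := hqup t ht.le
      have h2 : 0 < (1 + t ^ 2) ^ j := by positivity
      have h3 : (derivative (C c * (1 + X ^ 2) ^ (j + 1) - C (j : ℝ) * X * q)).eval t =
          c * (((j : ℝ) + 1) * (1 + t ^ 2) ^ j * (2 * t)) -
            (j * q.eval t + j * t * (c * (1 + t ^ 2) ^ j)) := by
        simp only [derivative_sub, derivative_mul, derivative_C, derivative_X, derivative_pow,
          derivative_add, derivative_one, eval_sub, eval_add, eval_mul, eval_X, eval_C, hqd,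
          hgeval, eval_pow, eval_one]
        simp
      rw [h3]
      have h4 : 0 ≤ c * t * (1 + t ^ 2) ^ j := by positivity
      have h5 : (j : ℝ) * q.eval t ≤ j * (c * t * (1 + t ^ 2) ^ j) :=
        mul_le_mul_of_nonneg_left h1 (by positivity)
      nlinarith) x hx
    simp only [eval_sub, eval_mul, eval_X, eval_C, eval_pow, eval_add, eval_one] at this
    linarith
  -- the numerator
  have hN : ∀ x : ℝ, 0 < x →
      (derivative g).eval x * (1 + (q.eval x) ^ 2) - 3 * q.eval x * (g.eval x) ^ 2 < 0 := by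
    intro x hx
    have hq1 := hqlow x hx.le
    have hqpos : 0 < q.eval x := lt_of_lt_of_le (by positivity) hq1
    have hk := hkey x hx.le
    rw [hgeval, hgdeval]
    obtain ⟨i, rfl⟩ : ∃ i, j = i + 1 := ⟨j - 1, by omega⟩
    simp only [Nat.add_sub_cancel]
    set s : ℝ := 1 + x ^ 2 with hs
    have hs1 : 1 < s := by rw [hs]; nlinarith
    have hs0 : 0 < s := by linarith
    have hspow : 0 < s ^ i := by positivity
    have hs1pow : 1 ≤ s ^ i := one_le_pow₀ hs1.le
    -- p' p''' ≤ 2 p''^2
    have h1 : 2 * ((i + 1 : ℕ) : ℝ) * c * (x * s ^ i) * q.eval x ≤ 2 * (c * s ^ (i + 1)) ^ 2 := by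
      have h2 : 0 ≤ 2 * c * s ^ i := by positivity
      have h3 := mul_le_mul_of_nonneg_left hk h2
      calc 2 * ((i + 1 : ℕ) : ℝ) * c * (x * s ^ i) * q.eval x
          = 2 * c * s ^ i * (((i + 1 : ℕ) : ℝ) * x * q.eval x) := by ring
        _ ≤ 2 * c * s ^ i * (c * s ^ (i + 1 + 1)) := h3
        _ = 2 * (c * s ^ (i + 1)) ^ 2 := by ring
    -- p''' < p' p''^2
    have h4 : 2 * ((i + 1 : ℕ) : ℝ) * c * (x * s ^ i) < q.eval x * (c * s ^ (i + 1)) ^ 2 := by
      calc 2 * ((i + 1 : ℕ) : ℝ) * c * (x * s ^ i)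
          = (2 * ((i + 1 : ℕ) : ℝ)) * (c * x * s ^ i) := by ring
        _ < c ^ 2 * (c * x * s ^ i) := by
            apply mul_lt_mul_of_pos_right hcj
            positivity
        _ ≤ c ^ 2 * (c * x * s ^ i) * (s ^ i * s ^ 2) := by
            have h6 : 1 ≤ s ^ i * s ^ 2 := by
              have : 1 ≤ s ^ 2 := one_le_pow₀ hs1.le
              nlinarith
            have h7 : 0 ≤ c ^ 2 * (c * x * s ^ i) := by positivity
            nlinarith
        _ = (c * x) * (c * s ^ (i + 1)) ^ 2 := by ring
        _ ≤ q.eval x * (c * s ^ (i + 1)) ^ 2 := by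
            apply mul_le_mul_of_nonneg_right hq1
            positivity
    have h8 := mul_le_mul_of_nonneg_left h1 hqpos.le
    nlinarith
  have hd3 : derivative (derivative (derivative p)) = derivative g := by rw [hp, hqd]
  have hd2 : derivative (derivative p) = g := by rw [hp, hqd]
  have hderiv : ∀ x : ℝ, deriv (kappa p) x =
      ((derivative g).eval x * (1 + (q.eval x) ^ 2) - 3 * q.eval x * (g.eval x) ^ 2) *
        (1 + (q.eval x) ^ 2) ^ (1 / 2 : ℝ) / ((1 + (q.eval x) ^ 2) ^ (3 / 2 : ℝ)) ^ 2 := by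
    intro x
    have := (hasDerivAt_kappa p x).deriv
    rw [hd3, hd2, hp] at this
    exact this
  have hfac : ∀ x : ℝ, 0 < (1 + (q.eval x) ^ 2) ^ (1 / 2 : ℝ) /
      ((1 + (q.eval x) ^ 2) ^ (3 / 2 : ℝ)) ^ 2 := by
    intro x
    have hB : 0 < 1 + (q.eval x) ^ 2 := by positivity
    have h1 := Real.rpow_pos_of_pos hB (1 / 2 : ℝ)
    have h2 := Real.rpow_pos_of_pos hB (3 / 2 : ℝ)
    positivity
  have hneg : ∀ x : ℝ, 0 < x → deriv (kappa p) x < 0 := by
    intro x hx
    rw [hderiv, mul_div_assoc]
    exact mul_neg_of_neg_of_pos (hN x hx) (hfac x)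
  have hpos : ∀ x : ℝ, x < 0 → 0 < deriv (kappa p) x := by
    intro x hx
    have h1 := hN (-x) (by linarith)
    rw [hodd] at h1
    have h2 : g.eval (-x) = g.eval x := by rw [hgeval, hgeval]; ring
    have h3 : (derivative g).eval (-x) = -(derivative g).eval x := by
      rw [hgdeval, hgdeval]; ring
    rw [h2, h3] at h1
    rw [hderiv, mul_div_assoc]
    apply mul_pos _ (hfac x)
    nlinarith
  have hzero : deriv (kappa p) 0 = 0 := by
    rw [hderiv, hgdeval, hq0]; simp
  have hdiff : ∀ x : ℝ, DifferentiableAt ℝ (kappa p) x := fun x =>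
    (hasDerivAt_kappa p x).differentiableAt
  have hset : {x : ℝ | deriv (kappa p) x = 0} = {0} := by
    ext x
    simp only [mem_ofPred_eq, mem_singleton_iff]
    constructor
    · intro h
      rcases lt_trichotomy x 0 with hx | hx | hx
      · exact absurd h (hpos x hx).ne'
      · exact hx
      · exact absurd h (hneg x hx).ne
    · rintro rfl; exact hzero
  refine ⟨p, ?_, hset, ?_⟩
  · -- degree
    have hgdeg : g.natDegree = 2 * j := by
      rw [hg, natDegree_C_mul hc0.ne', natDegree_pow]
      have : (1 + X ^ 2 : ℝ[X]).natDegree = 2 := by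
        have h : (1 + X ^ 2 : ℝ[X]) = X ^ 2 + C 1 := by simp [add_comm]
        rw [h, natDegree_X_pow_add_C]
      rw [this]; ring
    have h1 : (derivative p).natDegree = p.natDegree - 1 := natDegree_derivative _
    have h2 : (derivative q).natDegree = q.natDegree - 1 := natDegree_derivative _
    rw [hqd, hgdeg] at h2
    rw [hp] at h1
    omega
  · ext x
    simp only [mem_ofPred_eq, mem_singleton_iff]
    constructor
    · intro h
      have := h.deriv_eq_zero
      have hx : x ∈ {x : ℝ | deriv (kappa p) x = 0} := this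
      rw [hset] at hx
      exact hx
    · rintro rfl
      right
      apply isLocalMax_of_deriv_Ioo (a := -1) (b := 0) (c := 1) (by norm_num) (by norm_num)
        (hdiff 0).continuousAt
      · exact fun x _ => (hdiff x).differentiableWithinAt
      · exact fun x _ => (hdiff x).differentiableWithinAt
      · intro x hx; exact (hpos x hx.2).le
      · intro x hx; exact (hneg x hx.1).le

end Pool.Agent.Results.MP_4bcb19_an.OneCritical
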